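import Mathlib

/-!
# The descent tree of the exceptional solutions of `x² - (k²+1) y² = k²`

An exceptional solution `0 < y < k - 1` is written as a triple `(y, k, X)`, `X = x - k y ≥ 2`,
with `X² + 2 y k X = y² + k²`.
-/

set_option autoImplicit false

namespace Pool.Agent.Lib.MP_b40da5_nt_h96

/-- exceptional triples `(a, b, X)` -/
structure Ex (a b X : ℕ) : Prop where
  pos : 1 ≤ a
  lt : a < b
  two : 2 ≤ X
  eq : X ^ 2 + 2 * a * b * X = a ^ 2 + b ^ 2

lemma Ex.eqZ {a b X : ℕ} (h : Ex a b X) :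
    (X : ℤ) ^ 2 + 2 * a * b * X = (a : ℤ) ^ 2 + (b : ℤ) ^ 2 := by exact_mod_cast h.eq

lemma Ex.mul_lt {a b X : ℕ} (h : Ex a b X) : a * X < b := by
  by_contra hc
  push Not at hc
  have h1 := h.eq
  have h2 := h.lt
  have h3 := h.two
  have h4 : 2 * b * b ≤ 2 * b * (a * X) := Nat.mul_le_mul_left _ hc
  nlinarith

lemma Ex.three_mul {a b X : ℕ} (h : Ex a b X) : 3 * a < b := by
  have h1 := h.eqZ
  have h2 := h.lt
  have h3 := h.two
  have h4 := h.pos
  by_contra hc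
  push Not at hc
  zify at hc h2 h3 h4
  nlinarith [mul_nonneg (by positivity : (0 : ℤ) ≤ (a : ℤ) * b) (by linarith : (0 : ℤ) ≤ (X : ℤ) - 2),
    mul_nonneg (by linarith : (0 : ℤ) ≤ (b : ℤ)) (by linarith : (0 : ℤ) ≤ 3 * (a : ℤ) - b)]

/-- the other element of the solution determines `X` -/
lemma Ex.unique_X {a b X X' : ℕ} (h : Ex a b X) (h' : Ex a b X') : X = X' := by
  have h1 := h.eqZ
  have h2 := h'.eqZ
  have h3 : ((X : ℤ) - X') * ((X : ℤ) + X' + 2 * a * b) = 0 := by linear_combination h1 - h2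
  rcases mul_eq_zero.mp h3 with h4 | h4
  · omega
  · exfalso
    have h5 := h.two
    have : (0 : ℤ) ≤ 2 * a * b := by positivity
    omega

/-- descent -/
theorem classify {a b X : ℕ} (h : Ex a b X) :
    (X = a ∧ b = 2 * a ^ 2) ∨ (∃ c, Ex c a X ∧ c + b = 2 * X * a) ∨
    (∃ m, (m = a + 1 ∨ m + 1 = a) ∧ 1 ≤ m ∧ X = 1 + 2 * a * m ∧ b = m + 2 * X * a) ∨
    (∃ m X', (Ex a m X' ∨ Ex m a X') ∧ X = X' + 2 * a * m ∧ b = m + 2 * X * a) := by
  have he := h.eqZ
  have ha : (1 : ℤ) ≤ a := by exact_mod_cast h.pos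
  have hab : (a : ℤ) < b := by exact_mod_cast h.lt
  have hX : (2 : ℤ) ≤ X := by exact_mod_cast h.two
  rcases lt_trichotomy X a with hlt | heq | hgt
  · right; left
    have hlt' : (X : ℤ) < a := by exact_mod_cast hlt
    obtain ⟨c, hc⟩ : ∃ c : ℤ, c = 2 * X * a - b := ⟨_, rfl⟩
    have hbc : (b : ℤ) * c = a ^ 2 - X ^ 2 := by rw [hc]; linear_combination he
    have hc0 : 0 < c := by
      by_contra hcon
      push Not at hcon
      nlinarith
    have hca : c < a := by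
      by_contra hcon
      push Not at hcon
      nlinarith
    lift c to ℕ using hc0.le
    refine ⟨c, ⟨by omega, by exact_mod_cast hca, h.two, ?_⟩, ?_⟩
    · zify
      have : (b : ℤ) = 2 * X * a - c := by linarith
      rw [this] at hbc
      linear_combination hbc
    · zify
      linarith
  · left
    refine ⟨heq, ?_⟩
    subst heq
    have h1 : (b : ℤ) * ((b : ℤ) - 2 * X ^ 2) = 0 := by linear_combination -he
    rcases mul_eq_zero.mp h1 with h2 | h2
    · omega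
    · zify; linarith
  · right; right
    have hgt' : (a : ℤ) < X := by exact_mod_cast hgt
    obtain ⟨m, hm⟩ : ∃ m : ℤ, m = b - 2 * X * a := ⟨_, rfl⟩
    have hbm : (b : ℤ) * m = X ^ 2 - a ^ 2 := by rw [hm]; linear_combination -he
    have hm0 : 0 < m := by
      by_contra hcon
      push Not at hcon
      nlinarith
    obtain ⟨Y, hY⟩ : ∃ Y : ℤ, Y = X - 2 * a * m := ⟨_, rfl⟩
    have hXY : (X : ℤ) * Y = a ^ 2 + m ^ 2 := by
      have : (b : ℤ) = m + 2 * X * a := by linarith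
      rw [this] at hbm
      rw [hY]
      linear_combination -hbm
    have hY0 : 0 < Y := by
      by_contra hcon
      push Not at hcon
      nlinarith [sq_nonneg m]
    have hXY' : Y ^ 2 + 2 * a * m * Y = a ^ 2 + m ^ 2 := by
      have : (X : ℤ) = Y + 2 * a * m := by linarith
      rw [this] at hXY
      linear_combination hXY
    lift m to ℕ using hm0.le
    lift Y to ℕ using hY0.le
    have hX1 : X = Y + 2 * a * m := by zify; linarith
    have hb1 : b = m + 2 * X * a := by zify; linarith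
    rcases eq_or_lt_of_le (show 1 ≤ Y by omega) with h1 | h1
    · left
      refine ⟨m, ?_, by omega, by rw [hX1, ← h1], hb1⟩
      rw [← h1] at hXY'
      have h2 : ((m : ℤ) - a - 1) * (m - a + 1) = 0 := by
        push_cast at hXY'
        linear_combination -hXY'
      rcases mul_eq_zero.mp h2 with h3 | h3
      · left; omega
      · right; omega
    · right
      refine ⟨m, Y, ?_, hX1, hb1⟩
      have hN : Y ^ 2 + 2 * a * m * Y = a ^ 2 + m ^ 2 := by exact_mod_cast hXY'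
      rcases lt_trichotomy a m with h2 | h2 | h2
      · left
        exact ⟨h.pos, h2, h1, hN⟩
      · exfalso
        subst h2
        have h3 : 1 ≤ a * a := Nat.mul_pos h.pos h.pos
        nlinarith
      · right
        exact ⟨by omega, h2, h1, by linarith⟩

/-! ### Triples and maps -/

/-- triples -/
abbrev Tr : Type := ℕ × ℕ × ℕ

/-- exceptional triples -/
def ExT (P : Tr) : Prop := Ex P.1 P.2.1 P.2.2

/-- the three children -/
def ch : Fin 3 → Tr → Tr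
  | 0, P => (P.2.1, 2 * P.2.2 * P.2.1 - P.1, P.2.2)
  | 1, P => (P.1, P.2.1 + 2 * (P.2.2 + 2 * P.1 * P.2.1) * P.1, P.2.2 + 2 * P.1 * P.2.1)
  | 2, P => (P.2.1, P.1 + 2 * (P.2.2 + 2 * P.2.1 * P.1) * P.2.1, P.2.2 + 2 * P.2.1 * P.1)

/-- the four main families -/
def bs : Fin 4 → ℕ → Tr
  | 0, t => (t, 2 * t ^ 2, t)
  | 1, t => (2 * t ^ 2, 4 * t ^ 3 - t, t)
  | 2, t => (t + 1, (2 * t + 1) * (2 * t ^ 2 + 3 * t + 2), 1 + 2 * (t + 1) * t)
  | 3, t => (t, (2 * t + 1) * (2 * t ^ 2 + t + 1), 1 + 2 * t * (t + 1))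

lemma ch_bs_zero (t : ℕ) : ch 0 (bs 0 t) = bs 1 t := by
  simp only [ch, bs]
  refine Prod.ext rfl (Prod.ext ?_ rfl)
  show 2 * t * (2 * t ^ 2) - t = 4 * t ^ 3 - t
  congr 1
  ring

/-- the descent in terms of triples -/
theorem classifyT {P : Tr} (h : ExT P) :
    (∃ j : Fin 4, ∃ t : ℕ, 1 ≤ t ∧ P = bs j t) ∨
      ∃ i : Fin 3, ∃ Q : Tr, ExT Q ∧ Q.2.1 < P.2.1 ∧ P = ch i Q := by
  obtain ⟨a, b, X⟩ := P
  have h' : Ex a b X := h
  rcases classify h' with ⟨h1, h2⟩ | ⟨c, h1, h2⟩ | ⟨m, h1, h2, h3, h4⟩ | ⟨m, Y, h1, h2, h3⟩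
  · left
    exact ⟨0, a, h'.pos, by rw [h1, h2]; rfl⟩
  · right
    refine ⟨0, (c, a, X), h1, h'.lt, ?_⟩
    simp only [ch]
    refine Prod.ext rfl (Prod.ext ?_ rfl)
    show b = 2 * X * a - c
    omega
  · left
    rcases h1 with rfl | rfl
    · refine ⟨3, a, h'.pos, ?_⟩
      simp only [bs]
      refine Prod.ext rfl (Prod.ext ?_ h3)
      show b = (2 * a + 1) * (2 * a ^ 2 + a + 1)
      rw [h4, h3]; ring
    · refine ⟨2, m, h2, ?_⟩
      simp only [bs]
      refine Prod.ext rfl (Prod.ext ?_ h3)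
      show b = (2 * m + 1) * (2 * m ^ 2 + 3 * m + 2)
      rw [h4, h3]; ring
  · right
    rcases h1 with h1 | h1
    · refine ⟨1, (a, m, Y), h1, ?_, ?_⟩
      · show m < b
        have := h'.pos
        have := h'.two
        rw [h3]
        have : 0 < 2 * X * a := by positivity
        omega
      · simp only [ch]
        refine Prod.ext rfl (Prod.ext ?_ h2)
        show b = m + 2 * (Y + 2 * a * m) * a
        rw [h3, h2]
    · refine ⟨2, (m, a, Y), h1, h'.lt, ?_⟩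
      simp only [ch]
      refine Prod.ext rfl (Prod.ext ?_ h2)
      show b = m + 2 * (Y + 2 * a * m) * a
      rw [h3, h2]

/-! ### Sizes of the children -/

lemma ch0_size {Q : Tr} (h : ExT Q) : 3 * Q.2.1 ≤ (ch 0 Q).2.1 := by
  obtain ⟨a, b, X⟩ := Q
  have h' : Ex a b X := h
  show 3 * b ≤ 2 * X * b - a
  have h1 := h'.lt
  have h2 : 4 * b ≤ 2 * X * b := by
    have := h'.two
    nlinarith
  omega

lemma ch0_size' {Q : Tr} (h : ExT Q) : Q.2.2 * Q.2.1 ≤ (ch 0 Q).2.1 := by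
  obtain ⟨a, b, X⟩ := Q
  have h' : Ex a b X := h
  show X * b ≤ 2 * X * b - a
  have h1 := h'.lt
  have h2 : b ≤ X * b := by
    have := h'.two
    nlinarith
  have h3 : 2 * X * b = X * b + X * b := by ring
  omega

lemma ch1_size (Q : Tr) : 4 * Q.1 ^ 2 * Q.2.1 + Q.2.1 ≤ (ch 1 Q).2.1 := by
  obtain ⟨a, b, X⟩ := Q
  show 4 * a ^ 2 * b + b ≤ b + 2 * (X + 2 * a * b) * a
  have : b + 2 * (X + 2 * a * b) * a = 4 * a ^ 2 * b + b + 2 * X * a := by ring
  omega

lemma ch2_size (Q : Tr) : 4 * Q.1 * Q.2.1 ^ 2 ≤ (ch 2 Q).2.1 := by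
  obtain ⟨a, b, X⟩ := Q
  show 4 * a * b ^ 2 ≤ a + 2 * (X + 2 * b * a) * b
  have : a + 2 * (X + 2 * b * a) * b = 4 * a * b ^ 2 + a + 2 * X * b := by ring
  omega

/-! ### No coincidences between the main families -/

lemma sq_of_mul {a b c : ℕ} (h : Nat.Coprime a b) (he : a * b = c ^ 2) : ∃ d, a = d ^ 2 :=
  exists_eq_pow_of_mul_eq_pow (by
    rw [Nat.isUnit_iff]
    exact h) he

/-- `2 t² ≠ 4 s³ - s` -/
lemma root_ne_H {s t : ℕ} (hs : 1 ≤ s) : s * (4 * s ^ 2 - 1) ≠ 2 * t ^ 2 := by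
  intro h
  have h4 : 1 ≤ 4 * s ^ 2 := by nlinarith
  have hodd : (4 * s ^ 2 - 1) % 2 = 1 := by omega
  have heven : s % 2 = 0 := by
    rcases Nat.mod_two_eq_zero_or_one s with h1 | h1
    · exact h1
    · exfalso
      have : (s * (4 * s ^ 2 - 1)) % 2 = 1 := by
        rw [Nat.mul_mod, h1, hodd]
      omega
  obtain ⟨r, rfl⟩ : ∃ r, s = 2 * r := ⟨s / 2, by omega⟩
  have hr : 1 ≤ r := by omega
  have h16 : 1 ≤ 16 * r ^ 2 := by nlinarith
  have e1 : (16 * r ^ 2 - 1) * r = t ^ 2 := by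
    have e2 : 4 * (2 * r) ^ 2 = 16 * r ^ 2 := by ring
    rw [e2] at h
    have : 2 * ((16 * r ^ 2 - 1) * r) = 2 * t ^ 2 := by rw [← h]; ring
    omega
  have hcop : Nat.Coprime (16 * r ^ 2 - 1) r := by
    obtain ⟨u, hu⟩ : ∃ u, 16 * r ^ 2 - 1 = u := ⟨_, rfl⟩
    have hu' : 16 * r ^ 2 = u + 1 := by omega
    rw [hu]
    have : Nat.gcd u r ∣ 1 := by
      have d1 : Nat.gcd u r ∣ 16 * r ^ 2 :=
        (Nat.gcd_dvd_right u r).trans ⟨16 * r, by ring⟩
      rw [hu'] at d1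
      exact (Nat.dvd_add_right (Nat.gcd_dvd_left u r)).mp d1
    exact Nat.dvd_one.mp this
  obtain ⟨d, hd⟩ := sq_of_mul hcop e1
  have h5 : (d ^ 2) % 4 = 3 := by rw [← hd]; omega
  have h6 : d % 4 = 0 ∨ d % 4 = 1 ∨ d % 4 = 2 ∨ d % 4 = 3 := by omega
  rcases h6 with h6 | h6 | h6 | h6 <;> simp [Nat.pow_mod, h6] at h5

/-- `2 t²` is not in the first family of consecutive type -/
lemma root_ne_F {s t : ℕ} (hs : 1 ≤ s) : (2 * s + 1) * (2 * s ^ 2 + 3 * s + 2) ≠ 2 * t ^ 2 := by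
  intro h
  have heven : s % 2 = 0 := by
    rcases Nat.mod_two_eq_zero_or_one s with h1 | h1
    · exact h1
    · exfalso
      have h2 : (2 * s ^ 2 + 3 * s + 2) % 2 = 1 := by omega
      have : ((2 * s + 1) * (2 * s ^ 2 + 3 * s + 2)) % 2 = 1 := by
        rw [Nat.mul_mod, h2, show (2 * s + 1) % 2 = 1 by omega]
      omega
  obtain ⟨r, rfl⟩ : ∃ r, s = 2 * r := ⟨s / 2, by omega⟩
  have hr : 1 ≤ r := by omega
  have e1 : (4 * r ^ 2 + 3 * r + 1) * (4 * r + 1) = t ^ 2 := by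
    have : 2 * ((4 * r ^ 2 + 3 * r + 1) * (4 * r + 1)) = 2 * t ^ 2 := by rw [← h]; ring
    omega
  have hcop : Nat.Coprime (4 * r ^ 2 + 3 * r + 1) (4 * r + 1) := by
    have d1 := Nat.gcd_dvd_left (4 * r ^ 2 + 3 * r + 1) (4 * r + 1)
    have d2 := Nat.gcd_dvd_right (4 * r ^ 2 + 3 * r + 1) (4 * r + 1)
    have d3 : Nat.gcd (4 * r ^ 2 + 3 * r + 1) (4 * r + 1) ∣ 2 := by
      have e2 : 4 * (4 * r ^ 2 + 3 * r + 1) = (4 * r + 1) * (4 * r + 2) + 2 := by ring
      have d4 := d1.mul_left 4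
      rw [e2] at d4
      exact (Nat.dvd_add_right (d2.mul_right _)).mp d4
    have d5 : Nat.gcd (4 * r ^ 2 + 3 * r + 1) (4 * r + 1) ∣ 1 := by
      have d6 : Nat.gcd (4 * r ^ 2 + 3 * r + 1) (4 * r + 1) ∣ 4 * r :=
        d3.trans ⟨2 * r, by ring⟩
      exact (Nat.dvd_add_right d6).mp d2
    exact Nat.dvd_one.mp d5
  obtain ⟨d, hd⟩ := sq_of_mul hcop e1
  have h1 : 2 * r < d := by
    by_contra hc
    push Not at hc
    have := Nat.pow_le_pow_left hc 2
    nlinarith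
  have h2 : d < 2 * r + 1 := by
    by_contra hc
    push Not at hc
    have := Nat.pow_le_pow_left hc 2
    nlinarith
  omega

/-- `2 t²` is not in the second family of consecutive type -/
lemma root_ne_G {s t : ℕ} : (2 * s + 1) * (2 * s ^ 2 + s + 1) ≠ 2 * t ^ 2 := by
  intro h
  have hodd : s % 2 = 1 := by
    rcases Nat.mod_two_eq_zero_or_one s with h1 | h1
    · exfalso
      have h2 : (2 * s ^ 2 + s + 1) % 2 = 1 := by omega
      have : ((2 * s + 1) * (2 * s ^ 2 + s + 1)) % 2 = 1 := by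
        rw [Nat.mul_mod, h2, show (2 * s + 1) % 2 = 1 by omega]
      omega
    · exact h1
  obtain ⟨r, rfl⟩ : ∃ r, s = 2 * r + 1 := ⟨s / 2, by omega⟩
  have e1 : (4 * r + 3) * (4 * r ^ 2 + 5 * r + 2) = t ^ 2 := by
    have : 2 * ((4 * r + 3) * (4 * r ^ 2 + 5 * r + 2)) = 2 * t ^ 2 := by rw [← h]; ring
    omega
  have hcop : Nat.Coprime (4 * r + 3) (4 * r ^ 2 + 5 * r + 2) := by
    have d2 := Nat.gcd_dvd_left (4 * r + 3) (4 * r ^ 2 + 5 * r + 2)
    have d1 := Nat.gcd_dvd_right (4 * r + 3) (4 * r ^ 2 + 5 * r + 2)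
    have d3 : Nat.gcd (4 * r + 3) (4 * r ^ 2 + 5 * r + 2) ∣ 2 := by
      have e2 : 4 * (4 * r ^ 2 + 5 * r + 2) = (4 * r + 3) * (4 * r + 2) + 2 := by ring
      have d4 := d1.mul_left 4
      rw [e2] at d4
      exact (Nat.dvd_add_right (d2.mul_right _)).mp d4
    have d5 : Nat.gcd (4 * r + 3) (4 * r ^ 2 + 5 * r + 2) ∣ 1 := by
      have d6 : Nat.gcd (4 * r + 3) (4 * r ^ 2 + 5 * r + 2) ∣ 4 * r + 2 :=
        d3.trans ⟨2 * r + 1, by ring⟩
      have e3 : 4 * r + 3 = (4 * r + 2) + 1 := by ring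
      rw [e3] at d2
      have d7 := d2
      rw [← e3] at d7
      have d8 : Nat.gcd (4 * r + 3) (4 * r ^ 2 + 5 * r + 2) ∣ (4 * r + 2) + 1 := d7
      exact (Nat.dvd_add_right d6).mp d8
    exact Nat.dvd_one.mp d5
  obtain ⟨d, hd⟩ := sq_of_mul hcop e1
  have h5 : (d ^ 2) % 4 = 3 := by rw [← hd]; omega
  have h6 : d % 4 = 0 ∨ d % 4 = 1 ∨ d % 4 = 2 ∨ d % 4 = 3 := by omega
  rcases h6 with h6 | h6 | h6 | h6 <;> simp [Nat.pow_mod, h6] at h5

end Pool.Agent.Lib.MP_b40da5_nt_h96
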