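import Mathlib
import Pool.Agent.Lib.MP_b40da5_nt_h96.Tree

/-!
# Counting the exceptional triples outside the four main families
-/

set_option autoImplicit false

namespace Pool.Agent.Lib.MP_b40da5_nt_h96

open Finset

/-- membership in the four main families -/
def IsBase (P : Tr) : Prop := ∃ j : Fin 4, ∃ t : ℕ, 1 ≤ t ∧ P = bs j t

open Classical in
/-- exceptional triples with second element at most `N` outside the main families -/
noncomputable def Bad (N : ℕ) : Finset Tr :=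
  ((range (N + 1)) ×ˢ (range (N + 1)) ×ˢ (range (N + 1))).filter fun P => ExT P ∧ ¬ IsBase P

lemma mem_Bad {N : ℕ} {P : Tr} : P ∈ Bad N ↔ ExT P ∧ ¬ IsBase P ∧ P.2.1 ≤ N := by
  classical
  unfold Bad
  rw [mem_filter, mem_product, mem_product, mem_range, mem_range, mem_range]
  constructor
  · rintro ⟨⟨_, h2, _⟩, h4, h5⟩
    exact ⟨h4, h5, by omega⟩
  · rintro ⟨h4, h5, h6⟩
    have h' : Ex P.1 P.2.1 P.2.2 := h4
    have h1 := h'.lt
    have h2 := h'.mul_lt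
    have h3 := h'.pos
    have h7 : P.2.2 ≤ P.1 * P.2.2 := Nat.le_mul_of_pos_left _ h3
    exact ⟨⟨by omega, by omega, by omega⟩, h4, h5⟩

/-- origin of the bad triples -/
lemma bad_cases {N : ℕ} {P : Tr} (h : P ∈ Bad N) :
    (∃ i : Fin 3, ∃ j : Fin 4, ∃ t : ℕ, 1 ≤ t ∧ (i, j) ≠ (0, 0) ∧ P = ch i (bs j t)) ∨
      ∃ i : Fin 3, ∃ Q ∈ Bad N, P = ch i Q := by
  obtain ⟨h1, h2, h3⟩ := mem_Bad.mp h
  rcases classifyT h1 with h4 | ⟨i, Q, hQ, hlt, hP⟩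
  · exact absurd h4 h2
  · by_cases hb : IsBase Q
    · obtain ⟨j, t, ht, rfl⟩ := hb
      left
      refine ⟨i, j, t, ht, ?_, hP⟩
      intro he
      obtain ⟨hi, hj⟩ := Prod.mk.inj he
      subst hi hj
      exact h2 ⟨1, t, ht, by rw [hP, ch_bs_zero]⟩
    · right
      exact ⟨i, Q, mem_Bad.mpr ⟨hQ, hb, by omega⟩, hP⟩

lemma bs_size (j : Fin 4) {t : ℕ} (ht : 1 ≤ t) : t ≤ (bs j t).1 ∧ t ^ 2 ≤ (bs j t).2.1 := by
  have h2 : t ≤ t ^ 2 := Nat.le_self_pow two_ne_zero t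
  have h3 : t ^ 2 ≤ t ^ 3 := Nat.pow_le_pow_right ht (by norm_num)
  fin_cases j
  · show t ≤ t ∧ t ^ 2 ≤ 2 * t ^ 2
    omega
  · show t ≤ 2 * t ^ 2 ∧ t ^ 2 ≤ 4 * t ^ 3 - t
    omega
  · show t ≤ t + 1 ∧ t ^ 2 ≤ (2 * t + 1) * (2 * t ^ 2 + 3 * t + 2)
    refine ⟨by omega, ?_⟩
    nlinarith
  · show t ≤ t ∧ t ^ 2 ≤ (2 * t + 1) * (2 * t ^ 2 + t + 1)
    refine ⟨le_rfl, ?_⟩
    nlinarith

lemma gen_size (i : Fin 3) (j : Fin 4) {t : ℕ} (ht : 1 ≤ t) (hij : (i, j) ≠ (0, 0)) :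
    t ^ 4 ≤ (ch i (bs j t)).2.1 := by
  obtain ⟨h1, h2⟩ := bs_size j ht
  have h4 : t ^ 4 = (t ^ 2) ^ 2 := by ring
  fin_cases i
  · fin_cases j
    · exact absurd rfl hij
    · show t ^ 4 ≤ 2 * t * (4 * t ^ 3 - t) - 2 * t ^ 2
      have e : 2 * t * (4 * t ^ 3 - t) = 8 * t ^ 4 - 2 * t ^ 2 := by
        rw [Nat.mul_sub]
        congr 1 <;> ring
      have h5 : t ^ 2 ≤ t ^ 4 := Nat.pow_le_pow_right ht (by norm_num)
      rw [e]
      omega
    · show t ^ 4 ≤ 2 * (1 + 2 * (t + 1) * t) * ((2 * t + 1) * (2 * t ^ 2 + 3 * t + 2)) - (t + 1)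
      have e : 2 * (1 + 2 * (t + 1) * t) * ((2 * t + 1) * (2 * t ^ 2 + 3 * t + 2))
          = t ^ 4 + (t + 1) + (16 * t ^ 5 + 47 * t ^ 4 + 68 * t ^ 3 + 52 * t ^ 2 + 21 * t + 3) := by
        ring
      rw [e]
      omega
    · show t ^ 4 ≤ 2 * (1 + 2 * t * (t + 1)) * ((2 * t + 1) * (2 * t ^ 2 + t + 1)) - t
      have e : 2 * (1 + 2 * t * (t + 1)) * ((2 * t + 1) * (2 * t ^ 2 + t + 1))
          = t ^ 4 + t + (16 * t ^ 5 + 31 * t ^ 4 + 36 * t ^ 3 + 24 * t ^ 2 + 9 * t + 2) := by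
        ring
      rw [e]
      omega
  · refine le_trans ?_ (ch1_size _)
    have h5 : t ^ 2 ≤ (bs j t).1 ^ 2 := Nat.pow_le_pow_left h1 2
    have h6 : t ^ 2 * t ^ 2 ≤ (bs j t).1 ^ 2 * (bs j t).2.1 := Nat.mul_le_mul h5 h2
    nlinarith
  · refine le_trans ?_ (ch2_size _)
    have h5 : (t ^ 2) ^ 2 ≤ (bs j t).2.1 ^ 2 := Nat.pow_le_pow_left h2 2
    have h6 : 1 * (t ^ 2) ^ 2 ≤ (bs j t).1 * (bs j t).2.1 ^ 2 :=
      Nat.mul_le_mul (ht.trans h1) h5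
    nlinarith

/-! ### The weight -/

/-- the weight of a triple -/
noncomputable def wt (N : ℕ) (P : Tr) : ℝ :=
  (if P.1 < 400 then 8 else 1) * ((N : ℝ) / P.2.1) ^ (1 / 5 : ℝ)

lemma wt_nonneg (N : ℕ) (P : Tr) : 0 ≤ wt N P := by
  unfold wt
  have : 0 ≤ ((N : ℝ) / P.2.1) ^ (1 / 5 : ℝ) := by positivity
  split_ifs <;> linarith

lemma wt_le (N : ℕ) (P : Tr) : wt N P ≤ 8 * ((N : ℝ) / P.2.1) ^ (1 / 5 : ℝ) := by
  unfold wt
  have : 0 ≤ ((N : ℝ) / P.2.1) ^ (1 / 5 : ℝ) := by positivity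
  split_ifs <;> linarith

lemma one_le_wt {N : ℕ} {P : Tr} (h : P ∈ Bad N) : 1 ≤ wt N P := by
  obtain ⟨h1, h2, h3⟩ := mem_Bad.mp h
  have h' : Ex P.1 P.2.1 P.2.2 := h1
  have hb : 0 < P.2.1 := lt_of_le_of_lt (Nat.zero_le _) h'.lt
  have h4 : 1 ≤ ((N : ℝ) / P.2.1) ^ (1 / 5 : ℝ) := by
    apply Real.one_le_rpow _ (by norm_num)
    rw [one_le_div (by exact_mod_cast hb)]
    exact_mod_cast h3
  unfold wt
  split_ifs <;> linarith

lemma wpow {N b b' : ℕ} {κ : ℝ} (hb : 0 < b) (hb' : 0 < b') (hκ : 0 ≤ κ)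
    (h : (b : ℝ) ≤ κ ^ 5 * b') :
    ((N : ℝ) / b') ^ (1 / 5 : ℝ) ≤ κ * ((N : ℝ) / b) ^ (1 / 5 : ℝ) := by
  have hb0 : (0 : ℝ) < b := by exact_mod_cast hb
  have hb0' : (0 : ℝ) < b' := by exact_mod_cast hb'
  have h1 : (N : ℝ) / b' ≤ κ ^ 5 * ((N : ℝ) / b) := by
    rw [div_le_iff₀ hb0', mul_div_assoc', div_mul_eq_mul_div, le_div_iff₀ hb0]
    have : (N : ℝ) * b ≤ N * (κ ^ 5 * b') := by gcongr
    linarith
  have e : κ = (κ ^ 5) ^ (1 / 5 : ℝ) := by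
    have := Real.pow_rpow_inv_natCast hκ (n := 5) (by norm_num)
    rw [one_div]
    exact_mod_cast this.symm
  calc ((N : ℝ) / b') ^ (1 / 5 : ℝ) ≤ (κ ^ 5 * ((N : ℝ) / b)) ^ (1 / 5 : ℝ) :=
        Real.rpow_le_rpow (by positivity) h1 (by norm_num)
    _ = κ * ((N : ℝ) / b) ^ (1 / 5 : ℝ) := by
        rw [Real.mul_rpow (by positivity) (by positivity), ← e]

/-- the weights of the children -/
lemma children_wt {N : ℕ} {Q : Tr} (h : ExT Q) (hb : 400 ≤ Q.2.1) :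
    ∑ i : Fin 3, wt N (ch i Q) ≤ 0.95 * wt N Q := by
  have h' : Ex Q.1 Q.2.1 Q.2.2 := h
  have s0 := ch0_size h
  have s1 := ch1_size Q
  have s2 := ch2_size Q
  have hb0 : 0 < Q.2.1 := by omega
  have p0 : 0 < (ch 0 Q).2.1 := by omega
  have p1 : 0 < (ch 1 Q).2.1 := by omega
  have ha := h'.pos
  have p2 : 0 < (ch 2 Q).2.1 := by
    have : 0 < 4 * Q.1 * Q.2.1 ^ 2 := by positivity
    omega
  set ω := ((N : ℝ) / Q.2.1) ^ (1 / 5 : ℝ) with hω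
  have hω0 : 0 ≤ ω := by positivity
  rw [Fin.sum_univ_three]
  have e0 : wt N (ch 0 Q) ≤ 0.81 * ω := by
    have h1 : wt N (ch 0 Q) = ((N : ℝ) / (ch 0 Q).2.1) ^ (1 / 5 : ℝ) := by
      unfold wt
      rw [if_neg (by show ¬ Q.2.1 < 400; omega), one_mul]
    rw [h1]
    refine wpow hb0 p0 (by norm_num) ?_
    have : (3 : ℝ) * Q.2.1 ≤ (ch 0 Q).2.1 := by exact_mod_cast s0
    have : (0 : ℝ) ≤ Q.2.1 := by positivity
    norm_num
    linarith
  have e2' : ∀ κ : ℝ, 0 ≤ κ → (Q.2.1 : ℝ) ≤ κ ^ 5 * (ch 2 Q).2.1 → wt N (ch 2 Q) ≤ κ * ω := by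
    intro κ hκ hle
    have h1 : wt N (ch 2 Q) = ((N : ℝ) / (ch 2 Q).2.1) ^ (1 / 5 : ℝ) := by
      unfold wt
      rw [if_neg (by show ¬ Q.2.1 < 400; omega), one_mul]
    rw [h1]
    exact wpow hb0 p2 hκ hle
  by_cases hA : Q.1 < 400
  · have hQ : wt N Q = 8 * ω := by unfold wt; rw [if_pos hA]
    have e1 : wt N (ch 1 Q) ≤ 8 * (0.73 * ω) := by
      have h1 : wt N (ch 1 Q) = 8 * ((N : ℝ) / (ch 1 Q).2.1) ^ (1 / 5 : ℝ) := by
        unfold wt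
        rw [if_pos (by show Q.1 < 400; omega)]
      rw [h1]
      refine mul_le_mul_of_nonneg_left (wpow hb0 p1 (by norm_num) ?_) (by norm_num)
      have h2 : 5 * Q.2.1 ≤ (ch 1 Q).2.1 := by
        refine le_trans ?_ s1
        have : 1 * Q.2.1 ≤ Q.1 ^ 2 * Q.2.1 := Nat.mul_le_mul_right _ (Nat.one_le_pow _ _ ha)
        nlinarith
      have : (5 : ℝ) * Q.2.1 ≤ (ch 1 Q).2.1 := by exact_mod_cast h2
      have : (0 : ℝ) ≤ Q.2.1 := by positivity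
      norm_num
      linarith
    have e2 : wt N (ch 2 Q) ≤ 0.23 * ω := by
      refine e2' _ (by norm_num) ?_
      have h2 : 1600 * Q.2.1 ≤ (ch 2 Q).2.1 := by
        refine le_trans ?_ s2
        have h3 : 400 * Q.2.1 ≤ Q.2.1 * Q.2.1 := Nat.mul_le_mul_right _ hb
        have h4 : 1 * (Q.2.1 * Q.2.1) ≤ Q.1 * (Q.2.1 * Q.2.1) := Nat.mul_le_mul_right _ ha
        nlinarith
      have : (1600 : ℝ) * Q.2.1 ≤ (ch 2 Q).2.1 := by exact_mod_cast h2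
      have : (0 : ℝ) ≤ Q.2.1 := by positivity
      norm_num
      linarith
    rw [hQ]
    linarith
  · have hQ : wt N Q = ω := by unfold wt; rw [if_neg hA, one_mul]
    have hA' : 400 ≤ Q.1 := by omega
    have e1 : wt N (ch 1 Q) ≤ 0.07 * ω := by
      have h1 : wt N (ch 1 Q) = ((N : ℝ) / (ch 1 Q).2.1) ^ (1 / 5 : ℝ) := by
        unfold wt
        rw [if_neg (by show ¬ Q.1 < 400; omega), one_mul]
      rw [h1]
      refine wpow hb0 p1 (by norm_num) ?_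
      have h2 : 640000 * Q.2.1 ≤ (ch 1 Q).2.1 := by
        refine le_trans ?_ s1
        have h3 : 400 ^ 2 ≤ Q.1 ^ 2 := Nat.pow_le_pow_left hA' 2
        have h4 : 400 ^ 2 * Q.2.1 ≤ Q.1 ^ 2 * Q.2.1 := Nat.mul_le_mul_right _ h3
        nlinarith
      have : (640000 : ℝ) * Q.2.1 ≤ (ch 1 Q).2.1 := by exact_mod_cast h2
      have : (0 : ℝ) ≤ Q.2.1 := by positivity
      norm_num
      linarith
    have e2 : wt N (ch 2 Q) ≤ 0.07 * ω := by
      refine e2' _ (by norm_num) ?_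
      have h2 : 640000 * Q.2.1 ≤ (ch 2 Q).2.1 := by
        refine le_trans ?_ s2
        have h3 : 400 * 400 ≤ Q.1 * Q.2.1 := Nat.mul_le_mul hA' hb
        have h4 : 400 * 400 * Q.2.1 ≤ Q.1 * Q.2.1 * Q.2.1 := Nat.mul_le_mul_right _ h3
        nlinarith
      have : (640000 : ℝ) * Q.2.1 ≤ (ch 2 Q).2.1 := by exact_mod_cast h2
      have : (0 : ℝ) ≤ Q.2.1 := by positivity
      norm_num
      linarith
    rw [hQ]
    linarith

lemma children_wt_small {N : ℕ} {Q : Tr} (h : ExT Q) :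
    ∑ i : Fin 3, wt N (ch i Q) ≤ 24 * (N : ℝ) ^ (1 / 5 : ℝ) := by
  have h' : Ex Q.1 Q.2.1 Q.2.2 := h
  have s0 := ch0_size h
  have s1 := ch1_size Q
  have s2 := ch2_size Q
  have ha := h'.pos
  have hlt := h'.lt
  have key : ∀ i : Fin 3, wt N (ch i Q) ≤ 8 * (N : ℝ) ^ (1 / 5 : ℝ) := by
    intro i
    have hp : 1 ≤ (ch i Q).2.1 := by
      fin_cases i
      · show 1 ≤ (ch 0 Q).2.1
        omega
      · show 1 ≤ (ch 1 Q).2.1
        omega
      · show 1 ≤ (ch 2 Q).2.1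
        have : 0 < 4 * Q.1 * Q.2.1 ^ 2 := by
          have : 0 < Q.2.1 := by omega
          positivity
        omega
    refine (wt_le N _).trans (mul_le_mul_of_nonneg_left ?_ (by norm_num))
    apply Real.rpow_le_rpow (by positivity) _ (by norm_num)
    apply div_le_self (by positivity)
    exact_mod_cast hp
  rw [Fin.sum_univ_three]
  have k0 := key 0
  have k1 := key 1
  have k2 := key 2
  linarith

/-! ### Sums -/

lemma sum_rpow_le (Z : ℕ) : ∑ t ∈ Icc 1 Z, (1 / (t : ℝ) ^ 4) ^ (1 / 5 : ℝ) ≤ 5 * (Z : ℝ) ^ (1 / 5 : ℝ) := by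
  induction Z with
  | zero => simp
  | succ Z ih =>
    rw [Finset.sum_Icc_succ_top (by omega)]
    obtain ⟨s, hs⟩ : ∃ s : ℝ, s = ((Z + 1 : ℕ) : ℝ) ^ (1 / 5 : ℝ) := ⟨_, rfl⟩
    obtain ⟨r, hr⟩ : ∃ r : ℝ, r = (Z : ℝ) ^ (1 / 5 : ℝ) := ⟨_, rfl⟩
    have hs0 : 0 < s := by rw [hs]; positivity
    have hr0 : 0 ≤ r := by rw [hr]; positivity
    have hs5 : s ^ 5 = (Z + 1 : ℕ) := by
      rw [hs, ← Real.rpow_natCast, ← Real.rpow_mul (by positivity)]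
      norm_num
    have hr5 : r ^ 5 = (Z : ℝ) := by
      rw [hr, ← Real.rpow_natCast, ← Real.rpow_mul (by positivity)]
      norm_num
    have hrs : r ≤ s := by
      rw [hr, hs]
      apply Real.rpow_le_rpow (by positivity) _ (by norm_num)
      push_cast
      linarith
    have e1 : (1 / ((Z + 1 : ℕ) : ℝ) ^ 4) ^ (1 / 5 : ℝ) = 1 / s ^ 4 := by
      rw [← hs5, Real.div_rpow (by positivity) (by positivity), Real.one_rpow]
      congr 1
      rw [← pow_mul, show 5 * 4 = 4 * 5 by norm_num, pow_mul]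
      have := Real.pow_rpow_inv_natCast (x := s ^ 4) (by positivity) (n := 5) (by norm_num)
      rw [one_div]
      exact_mod_cast this
    rw [e1, ← hs]
    rw [← hr] at ih
    refine (add_le_add_left ih _).trans ?_
    have h1 : (1 : ℝ) ≤ 5 * s ^ 4 * (s - r) := by
      have h2 : s ^ 5 - r ^ 5 = 1 := by rw [hs5, hr5]; push_cast; ring
      have h3 : s ^ 5 - r ^ 5 = (s - r) * (s ^ 4 + s ^ 3 * r + s ^ 2 * r ^ 2 + s * r ^ 3 + r ^ 4) := by
        ring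
      have h4 : s ^ 4 + s ^ 3 * r + s ^ 2 * r ^ 2 + s * r ^ 3 + r ^ 4 ≤ 5 * s ^ 4 := by
        have a1 : s ^ 3 * r ≤ s ^ 3 * s := by gcongr
        have a2 : s ^ 2 * r ^ 2 ≤ s ^ 2 * s ^ 2 := by gcongr
        have a3 : s * r ^ 3 ≤ s * s ^ 3 := by gcongr
        have a4 : r ^ 4 ≤ s ^ 4 := by gcongr
        nlinarith
      rw [← h2, h3]
      calc (s - r) * (s ^ 4 + s ^ 3 * r + s ^ 2 * r ^ 2 + s * r ^ 3 + r ^ 4)
          ≤ (s - r) * (5 * s ^ 4) := mul_le_mul_of_nonneg_left h4 (by linarith)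
        _ = _ := by ring
    have h5 : 1 / s ^ 4 ≤ 5 * (s - r) := by
      rw [div_le_iff₀ (by positivity)]
      linarith
    linarith

/-- `⌊N^(1/4)⌋` -/
def fr (N : ℕ) : ℕ := Nat.sqrt (Nat.sqrt N)

lemma le_fr {N t : ℕ} (h : t ^ 4 ≤ N) : t ≤ fr N := by
  unfold fr
  rw [Nat.le_sqrt', Nat.le_sqrt']
  have : (t ^ 2) ^ 2 = t ^ 4 := by ring
  omega

lemma fr_pow (N : ℕ) : (fr N) ^ 4 ≤ N := by
  unfold fr
  have h1 := Nat.sqrt_le' (Nat.sqrt N)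
  have h2 := Nat.sqrt_le' N
  calc (Nat.sqrt (Nat.sqrt N)) ^ 4 = ((Nat.sqrt (Nat.sqrt N)) ^ 2) ^ 2 := by ring
    _ ≤ (Nat.sqrt N) ^ 2 := Nat.pow_le_pow_left h1 2
    _ ≤ N := h2

lemma fr_rpow (N : ℕ) : (fr N : ℝ) ^ (1 / 5 : ℝ) ≤ (N : ℝ) ^ (1 / 20 : ℝ) := by
  have h1 : (fr N : ℝ) ^ 4 ≤ N := by exact_mod_cast fr_pow N
  have h2 : (fr N : ℝ) ^ (1 / 5 : ℝ) = ((fr N : ℝ) ^ 4) ^ (1 / 20 : ℝ) := by
    rw [← Real.rpow_natCast, ← Real.rpow_mul (by positivity)]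
    norm_num
  rw [h2]
  exact Real.rpow_le_rpow (by positivity) h1 (by norm_num)

lemma sum_union_le' {s t : Finset Tr} {w : Tr → ℝ} (hw : ∀ P, 0 ≤ w P) :
    ∑ P ∈ s ∪ t, w P ≤ ∑ P ∈ s, w P + ∑ P ∈ t, w P := by
  classical
  rw [← Finset.sum_union_inter]
  have : 0 ≤ ∑ P ∈ s ∩ t, w P := Finset.sum_nonneg fun P _ => hw P
  linarith

/-- the bad triples are few -/
theorem card_Bad_le : ∃ C : ℝ, 0 ≤ C ∧ ∀ N : ℕ, 1 ≤ N →
    ((Bad N).card : ℝ) ≤ C * (N : ℝ) ^ (1 / 4 : ℝ) := by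
  classical
  refine ⟨20 * (12 * 40 + 24 * 400 ^ 3), by norm_num, fun N hN => ?_⟩
  have hN1 : (1 : ℝ) ≤ N := by exact_mod_cast hN
  set q := (N : ℝ) ^ (1 / 4 : ℝ) with hq
  have hq5 : (N : ℝ) ^ (1 / 5 : ℝ) ≤ q := Real.rpow_le_rpow_of_exponent_le hN1 (by norm_num)
  have hq0 : 0 ≤ (N : ℝ) ^ (1 / 5 : ℝ) := by positivity
  have hqq : (N : ℝ) ^ (1 / 5 : ℝ) * (fr N : ℝ) ^ (1 / 5 : ℝ) ≤ q := by
    calc (N : ℝ) ^ (1 / 5 : ℝ) * (fr N : ℝ) ^ (1 / 5 : ℝ)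
        ≤ (N : ℝ) ^ (1 / 5 : ℝ) * (N : ℝ) ^ (1 / 20 : ℝ) := by
          have := fr_rpow N
          gcongr
      _ = q := by
          rw [← Real.rpow_add (by linarith), hq]
          norm_num
  set W := ∑ P ∈ Bad N, wt N P with hW
  set A : Finset ((Fin 3 × Fin 4) × ℕ) := ((univ : Finset (Fin 3 × Fin 4)).erase (0, 0)) ×ˢ Icc 1 (fr N)
    with hA
  have hsub : Bad N ⊆ A.image (fun x => ch x.1.1 (bs x.1.2 x.2))
      ∪ ((univ : Finset (Fin 3)) ×ˢ Bad N).image (fun x => ch x.1 x.2) := by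
    intro P hP
    rw [mem_union, mem_image, mem_image]
    rcases bad_cases hP with ⟨i, j, t, ht, hij, rfl⟩ | ⟨i, Q, hQ, rfl⟩
    · left
      refine ⟨((i, j), t), ?_, rfl⟩
      rw [hA, mem_product, mem_erase, mem_Icc]
      refine ⟨⟨hij, mem_univ _⟩, ht, ?_⟩
      have h1 := gen_size i j ht hij
      have h2 := (mem_Bad.mp hP).2.2
      exact le_fr (h1.trans h2)
    · right
      exact ⟨(i, Q), mem_product.mpr ⟨mem_univ _, hQ⟩, rfl⟩
  have h1 : W ≤ ∑ x ∈ A, wt N (ch x.1.1 (bs x.1.2 x.2))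
      + ∑ x ∈ (univ : Finset (Fin 3)) ×ˢ Bad N, wt N (ch x.1 x.2) := by
    calc W ≤ ∑ P ∈ A.image (fun x => ch x.1.1 (bs x.1.2 x.2))
          ∪ ((univ : Finset (Fin 3)) ×ˢ Bad N).image (fun x => ch x.1 x.2), wt N P :=
          Finset.sum_le_sum_of_subset_of_nonneg hsub fun P _ _ => wt_nonneg N P
      _ ≤ _ := (sum_union_le' (wt_nonneg N)).trans (add_le_add
          (Finset.sum_image_le_of_nonneg fun P _ => wt_nonneg N P)
          (Finset.sum_image_le_of_nonneg fun P _ => wt_nonneg N P))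
  have h2 : ∑ x ∈ A, wt N (ch x.1.1 (bs x.1.2 x.2)) ≤ 12 * 40 * q := by
    rw [hA, Finset.sum_product]
    have h3 : ∀ x ∈ (univ : Finset (Fin 3 × Fin 4)).erase (0, 0),
        ∑ t ∈ Icc 1 (fr N), wt N (ch x.1 (bs x.2 t)) ≤ 40 * q := by
      intro x hx
      have hx' := (mem_erase.mp hx).1
      have h4 : ∀ t ∈ Icc 1 (fr N), wt N (ch x.1 (bs x.2 t))
          ≤ 8 * ((N : ℝ) ^ (1 / 5 : ℝ) * (1 / (t : ℝ) ^ 4) ^ (1 / 5 : ℝ)) := by
        intro t ht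
        have ht1 := (mem_Icc.mp ht).1
        have h5 := gen_size x.1 x.2 ht1 hx'
        have ht0 : (0 : ℝ) < t := by exact_mod_cast ht1
        refine (wt_le N _).trans (mul_le_mul_of_nonneg_left ?_ (by norm_num))
        rw [← Real.mul_rpow (by positivity) (by positivity), mul_one_div]
        apply Real.rpow_le_rpow (by positivity) _ (by norm_num)
        have h6 : (t : ℝ) ^ 4 ≤ (ch x.1 (bs x.2 t)).2.1 := by exact_mod_cast h5
        exact div_le_div_of_nonneg_left (by positivity) (by positivity) h6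
      refine (Finset.sum_le_sum h4).trans ?_
      rw [← Finset.mul_sum, ← Finset.mul_sum]
      have h7 := sum_rpow_le (fr N)
      calc 8 * ((N : ℝ) ^ (1 / 5 : ℝ) * ∑ t ∈ Icc 1 (fr N), (1 / (t : ℝ) ^ 4) ^ (1 / 5 : ℝ))
          ≤ 8 * ((N : ℝ) ^ (1 / 5 : ℝ) * (5 * (fr N : ℝ) ^ (1 / 5 : ℝ))) := by gcongr
        _ = 40 * ((N : ℝ) ^ (1 / 5 : ℝ) * (fr N : ℝ) ^ (1 / 5 : ℝ)) := by ring
        _ ≤ 40 * q := by gcongr
    refine (Finset.sum_le_sum h3).trans ?_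
    rw [Finset.sum_const, nsmul_eq_mul]
    have h8 : (((univ : Finset (Fin 3 × Fin 4)).erase (0, 0)).card : ℝ) ≤ 12 := by
      have : ((univ : Finset (Fin 3 × Fin 4)).erase (0, 0)).card ≤ 12 := by decide
      exact_mod_cast this
    have h9 : 0 ≤ 40 * q := by positivity
    nlinarith
  have h3 : ∑ x ∈ (univ : Finset (Fin 3)) ×ˢ Bad N, wt N (ch x.1 x.2)
      ≤ 0.95 * W + 24 * 400 ^ 3 * q := by
    rw [Finset.sum_product_right]
    have h4 : ∀ Q ∈ Bad N, ∑ i : Fin 3, wt N (ch i Q)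
        ≤ 0.95 * wt N Q + (if Q.2.1 < 400 then 24 * (N : ℝ) ^ (1 / 5 : ℝ) else 0) := by
      intro Q hQ
      have hE := (mem_Bad.mp hQ).1
      have hw := wt_nonneg N Q
      split_ifs with h5
      · have := children_wt_small (N := N) hE
        linarith
      · have := children_wt (N := N) hE (by omega)
        linarith
    refine (Finset.sum_le_sum h4).trans ?_
    rw [Finset.sum_add_distrib, ← Finset.mul_sum, ← Finset.sum_filter, Finset.sum_const, nsmul_eq_mul]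
    have h5 : ((Bad N).filter fun Q => Q.2.1 < 400).card ≤ 400 ^ 3 := by
      have hs : ((Bad N).filter fun Q => Q.2.1 < 400) ⊆ range 400 ×ˢ range 400 ×ˢ range 400 := by
        intro Q hQ
        rw [mem_filter] at hQ
        have hE : Ex Q.1 Q.2.1 Q.2.2 := (mem_Bad.mp hQ.1).1
        have a1 := hE.lt
        have a2 := hE.mul_lt
        have a3 : Q.2.2 ≤ Q.1 * Q.2.2 := Nat.le_mul_of_pos_left _ hE.pos
        rw [mem_product, mem_product, mem_range, mem_range, mem_range]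
        omega
      refine (Finset.card_le_card hs).trans ?_
      rw [card_product, card_product, card_range]
      norm_num
    have h6 : (((Bad N).filter fun Q => Q.2.1 < 400).card : ℝ) ≤ 400 ^ 3 := by exact_mod_cast h5
    have h7 : (((Bad N).filter fun Q => Q.2.1 < 400).card : ℝ) * (24 * (N : ℝ) ^ (1 / 5 : ℝ))
        ≤ 400 ^ 3 * (24 * q) := by gcongr
    rw [← hW]
    linarith
  have h4 : ((Bad N).card : ℝ) ≤ W := by
    rw [hW]
    calc ((Bad N).card : ℝ) = ∑ P ∈ Bad N, (1 : ℝ) := by simp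
      _ ≤ _ := Finset.sum_le_sum fun P hP => one_le_wt hP
  linarith

end Pool.Agent.Lib.MP_b40da5_nt_h96
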