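import Mathlib
import Pool.Agent.Lib.MP_b40da5_nt.Classes
import Pool.Agent.Lib.MP_b40da5_nt_h96.Weight

/-!
# The number of classes for all but `O(N^(1/4))` values of `k`
-/

set_option autoImplicit false

namespace Pool.Agent.Lib.MP_b40da5_nt_h96

open Finset
open Pool.Agent.Lib.MP_b40da5_nt (ySet numClasses numClasses_eq' XOf XOf_spec XOf_pos y_of_X_one)

/-- `k` belongs to one of the four main families -/
def Fam (k : ℕ) : Prop :=
  ∃ t : ℕ, k = 2 * t ^ 2 ∨ k = 4 * t ^ 3 - t ∨ k = (2 * t + 1) * (2 * t ^ 2 + 3 * t + 2) ∨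
    k = (2 * t + 1) * (2 * t ^ 2 + t + 1)

lemma mem_ySet_iff {k y : ℕ} (hk : 2 ≤ k) : y ∈ ySet k ↔ y = k - 1 ∨ ∃ X, Ex y k X := by
  constructor
  · intro h
    have h1 := XOf_spec h
    have h2 := XOf_pos hk h
    rw [ySet, mem_filter, mem_Icc] at h
    have hk' : (2 : ℤ) ≤ k := by exact_mod_cast hk
    have hy1 : (y : ℤ) ≤ k - 1 := by
      have := h.1.2
      omega
    rcases eq_or_lt_of_le h2 with h3 | h3
    · left
      have := y_of_X_one hk' hy1 h1 h3.symm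
      omega
    · right
      obtain ⟨X, hX⟩ : ∃ X : ℕ, XOf k y = X := ⟨(XOf k y).toNat, by omega⟩
      rw [hX] at h1 h3
      refine ⟨X, ⟨h.1.1, by omega, by omega, ?_⟩⟩
      zify
      linear_combination -h1
  · rintro (rfl | ⟨X, hX⟩)
    · rw [ySet, mem_filter, mem_Icc]
      refine ⟨⟨by omega, le_refl _⟩, ?_⟩
      obtain ⟨m, rfl⟩ : ∃ m, k = m + 2 := ⟨k - 2, by omega⟩
      refine ⟨(m + 2) * (m + 1) + 1, ?_⟩
      have h2 : m + 2 - 1 = m + 1 := by omega
      rw [h2]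
      ring
    · rw [ySet, mem_filter, mem_Icc]
      have h1 := hX.lt
      refine ⟨⟨hX.pos, by omega⟩, ⟨k * y + X, ?_⟩⟩
      have h2 := hX.eqZ
      zify
      linear_combination -h2

/-- the exceptional `y` -/
noncomputable def YY (k : ℕ) : Finset ℕ := by
  classical
  exact (range k).filter fun y => ∃ X, Ex y k X

lemma mem_YY {k y : ℕ} : y ∈ YY k ↔ ∃ X, Ex y k X := by
  classical
  unfold YY
  rw [mem_filter, mem_range]
  constructor
  · exact fun h => h.2
  · rintro ⟨X, hX⟩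
    exact ⟨hX.lt, X, hX⟩

lemma ySet_eq {k : ℕ} (hk : 2 ≤ k) : ySet k = insert (k - 1) (YY k) := by
  ext y
  rw [mem_ySet_iff hk, mem_insert, mem_YY]

lemma numClasses_YY {k : ℕ} (hk : 2 ≤ k) : numClasses k = 3 + 2 * (YY k).card := by
  rw [numClasses_eq' hk, ySet_eq hk, card_insert_of_notMem]
  · ring
  · rw [mem_YY]
    rintro ⟨X, hX⟩
    have := hX.three_mul
    omega

lemma bs_exT {j : Fin 4} {t : ℕ} (ht : 1 ≤ t) (hk : 4 ≤ (bs j t).2.1) : ExT (bs j t) := by
  fin_cases j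
  · have hk' : 4 ≤ 2 * t ^ 2 := hk
    have ht2 : 2 ≤ t := by
      by_contra hc
      have : t = 1 := by omega
      subst this
      omega
    show Ex t (2 * t ^ 2) t
    exact ⟨ht, by nlinarith, ht2, by ring⟩
  · have hk' : 4 ≤ 4 * t ^ 3 - t := hk
    have ht2 : 2 ≤ t := by
      by_contra hc
      have : t = 1 := by omega
      subst this
      omega
    show Ex (2 * t ^ 2) (4 * t ^ 3 - t) t
    have h3 : t ^ 3 = t * t ^ 2 := by ring
    have h4 : 2 * t ^ 2 ≤ t * t ^ 2 := Nat.mul_le_mul_right _ ht2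
    have h5 : t < t ^ 2 := by nlinarith
    refine ⟨by nlinarith, by omega, ht2, ?_⟩
    obtain ⟨v, hv⟩ : ∃ v, 4 * t ^ 3 - t = v := ⟨_, rfl⟩
    have hv' : 4 * t ^ 3 = v + t := by omega
    rw [hv]
    zify at hv' ⊢
    have : (v : ℤ) = 4 * t ^ 3 - t := by linarith
    rw [this]
    ring
  · show Ex (t + 1) ((2 * t + 1) * (2 * t ^ 2 + 3 * t + 2)) (1 + 2 * (t + 1) * t)
    refine ⟨by omega, by nlinarith, by nlinarith, by ring⟩
  · show Ex t ((2 * t + 1) * (2 * t ^ 2 + t + 1)) (1 + 2 * t * (t + 1))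
    refine ⟨ht, by nlinarith, by nlinarith, by ring⟩

/-- bounds of the cubic families -/
lemma cubic_bounds {j : Fin 4} (hj : j ≠ 0) {t : ℕ} (ht : 1 ≤ t) :
    4 * t ^ 3 ≤ (bs j t).2.1 + t ∧ (bs j t).2.1 + (t + 1) < 4 * (t + 1) ^ 3 := by
  have h3 : t ≤ t ^ 3 := Nat.le_self_pow (by norm_num) t
  have e : 4 * (t + 1) ^ 3 = 4 * t ^ 3 + 12 * t ^ 2 + 12 * t + 4 := by ring
  fin_cases j
  · exact absurd rfl hj
  · show 4 * t ^ 3 ≤ (4 * t ^ 3 - t) + t ∧ (4 * t ^ 3 - t) + (t + 1) < 4 * (t + 1) ^ 3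
    omega
  · show 4 * t ^ 3 ≤ (2 * t + 1) * (2 * t ^ 2 + 3 * t + 2) + t ∧
      (2 * t + 1) * (2 * t ^ 2 + 3 * t + 2) + (t + 1) < 4 * (t + 1) ^ 3
    have e2 : (2 * t + 1) * (2 * t ^ 2 + 3 * t + 2) = 4 * t ^ 3 + 8 * t ^ 2 + 7 * t + 2 := by ring
    omega
  · show 4 * t ^ 3 ≤ (2 * t + 1) * (2 * t ^ 2 + t + 1) + t ∧
      (2 * t + 1) * (2 * t ^ 2 + t + 1) + (t + 1) < 4 * (t + 1) ^ 3
    have e2 : (2 * t + 1) * (2 * t ^ 2 + t + 1) = 4 * t ^ 3 + 4 * t ^ 2 + 3 * t + 1 := by ring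
    omega

lemma cubic_t_le {j j' : Fin 4} (hj : j ≠ 0) (hj' : j' ≠ 0) {t t' : ℕ} (ht : 1 ≤ t) (ht' : 1 ≤ t')
    (h : (bs j t).2.1 = (bs j' t').2.1) : t ≤ t' := by
  by_contra hc
  push Not at hc
  have h1 := (cubic_bounds hj ht).1
  have h2 := (cubic_bounds hj' ht').2
  -- `4 (t'+1)³ - (t'+1) ≤ 4 t³ - t`
  have h3 : 4 * (t' + 1) ^ 3 + t ≤ 4 * t ^ 3 + (t' + 1) := by
    obtain ⟨d, rfl⟩ : ∃ d, t = t' + 1 + d := ⟨t - (t' + 1), by omega⟩
    have e : 4 * (t' + 1 + d) ^ 3 + (t' + 1)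
        = 4 * (t' + 1) ^ 3 + (t' + 1 + d) + (d * (12 * (t' + 1) ^ 2 + 12 * (t' + 1) * d + 4 * d ^ 2) - d) := by
      have h4 : d ≤ d * (12 * (t' + 1) ^ 2 + 12 * (t' + 1) * d + 4 * d ^ 2) :=
        Nat.le_mul_of_pos_right _ (by positivity)
      zify [h4]
      ring
    omega
  omega

/-- no two main families have a common value -/
lemma base_inj {j j' : Fin 4} {t t' : ℕ} (ht : 1 ≤ t) (ht' : 1 ≤ t')
    (h : (bs j t).2.1 = (bs j' t').2.1) : bs j t = bs j' t' := by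
  have root : ∀ {j : Fin 4} {s t : ℕ}, j ≠ 0 → 1 ≤ s → (bs j s).2.1 ≠ 2 * t ^ 2 := by
    intro j s t hj hs
    fin_cases j
    · exact absurd rfl hj
    · show 4 * s ^ 3 - s ≠ 2 * t ^ 2
      have := root_ne_H (t := t) hs
      have e : s * (4 * s ^ 2 - 1) = 4 * s ^ 3 - s := by
        rw [Nat.mul_sub]
        congr 1
        · ring
        · ring
      rwa [e] at this
    · exact root_ne_F hs
    · exact root_ne_G
  by_cases hj : j = 0
  · subst hj
    by_cases hj' : j' = 0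
    · subst hj'
      have h1 : 2 * t ^ 2 = 2 * t' ^ 2 := h
      have h2 : t = t' := Nat.pow_left_injective (by norm_num : (2 : ℕ) ≠ 0) (by
        show t ^ 2 = t' ^ 2
        omega)
      rw [h2]
    · exact absurd h.symm (root hj' ht')
  · by_cases hj' : j' = 0
    · subst hj'
      exact absurd h (root hj ht)
    · have h1 := cubic_t_le hj hj' ht ht' h
      have h2 := cubic_t_le hj' hj ht' ht h.symm
      obtain rfl : t = t' := le_antisymm h1 h2
      have e2 : (2 * t + 1) * (2 * t ^ 2 + 3 * t + 2) = 4 * t ^ 3 + 8 * t ^ 2 + 7 * t + 2 := by ring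
      have e3 : (2 * t + 1) * (2 * t ^ 2 + t + 1) = 4 * t ^ 3 + 4 * t ^ 2 + 3 * t + 1 := by ring
      suffices hjj : j = j' by rw [hjj]
      fin_cases j <;> fin_cases j' <;>
        first
        | rfl
        | exact absurd rfl hj
        | exact absurd rfl hj'
        | (exfalso; simp only [bs] at h; omega)

lemma fam_iff {k : ℕ} (hk : 4 ≤ k) : Fam k ↔ ∃ j : Fin 4, ∃ t : ℕ, 1 ≤ t ∧ (bs j t).2.1 = k := by
  constructor
  · rintro ⟨t, h⟩
    have ht : 1 ≤ t := by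
      by_contra hc
      have : t = 0 := by omega
      subst this
      rcases h with h | h | h | h <;> norm_num at h <;> omega
    rcases h with h | h | h | h
    · exact ⟨0, t, ht, h.symm⟩
    · exact ⟨1, t, ht, h.symm⟩
    · exact ⟨2, t, ht, h.symm⟩
    · exact ⟨3, t, ht, h.symm⟩
  · rintro ⟨j, t, ht, h⟩
    refine ⟨t, ?_⟩
    fin_cases j
    · exact Or.inl h.symm
    · exact Or.inr (Or.inl h.symm)
    · exact Or.inr (Or.inr (Or.inl h.symm))
    · exact Or.inr (Or.inr (Or.inr h.symm))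

open Classical in
/-- the number of classes for `k` which is not bad -/
theorem numClasses_good {k N : ℕ} (hk : 4 ≤ k) (hkN : k ≤ N)
    (hb : k ∉ (Bad N).image fun P => P.2.1) : numClasses k = if Fam k then 5 else 3 := by
  rw [numClasses_YY (by omega)]
  have hbase : ∀ y ∈ YY k, ∃ j : Fin 4, ∃ t : ℕ, 1 ≤ t ∧ (bs j t).1 = y ∧ (bs j t).2.1 = k := by
    intro y hy
    obtain ⟨X, hX⟩ := mem_YY.mp hy
    by_contra hc
    refine hb (mem_image.mpr ⟨(y, k, X), mem_Bad.mpr ⟨hX, ?_, hkN⟩, rfl⟩)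
    rintro ⟨j, t, ht, he⟩
    exact hc ⟨j, t, ht, by rw [← he], by rw [← he]⟩
  split_ifs with hF
  · obtain ⟨j, t, ht, he⟩ := (fam_iff hk).mp hF
    have h1 : YY k = {(bs j t).1} := by
      ext y
      rw [mem_singleton]
      constructor
      · intro hy
        obtain ⟨j', t', ht', h2, h3⟩ := hbase y hy
        rw [← h2, base_inj ht' ht (h3.trans he.symm)]
      · rintro rfl
        have h4 := bs_exT (j := j) ht (by rw [he]; exact hk)
        rw [mem_YY]
        refine ⟨(bs j t).2.2, ?_⟩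
        rw [← he]
        exact h4
    rw [h1, card_singleton]
  · have h1 : YY k = ∅ := by
      rw [eq_empty_iff_forall_notMem]
      intro y hy
      obtain ⟨j', t', ht', h2, h3⟩ := hbase y hy
      exact hF ((fam_iff hk).mpr ⟨j', t', ht', h3⟩)
    rw [h1, card_empty]

open Classical in
/-- the main theorem -/
theorem main : ∃ C : ℝ, ∀ N : ℕ, 1 ≤ N →
    (((Icc 2 N).filter fun k => numClasses k ≠ if Fam k then 5 else 3).card : ℝ)
      ≤ C * (N : ℝ) ^ (1 / 4 : ℝ) := by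
  obtain ⟨C, hC, h⟩ := card_Bad_le
  refine ⟨C + 2, fun N hN => ?_⟩
  have hsub : ((Icc 2 N).filter fun k => numClasses k ≠ if Fam k then 5 else 3)
      ⊆ {2, 3} ∪ (Bad N).image fun P => P.2.1 := by
    intro k hk
    rw [mem_filter, mem_Icc] at hk
    rw [mem_union]
    by_cases h4 : 4 ≤ k
    · right
      by_contra hb
      exact hk.2 (numClasses_good h4 hk.1.2 hb)
    · left
      have : k = 2 ∨ k = 3 := by omega
      rcases this with rfl | rfl <;> simp
  have h1 : ((Icc 2 N).filter fun k => numClasses k ≠ if Fam k then 5 else 3).card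
      ≤ 2 + (Bad N).card := by
    refine (card_le_card hsub).trans ((card_union_le _ _).trans ?_)
    exact add_le_add (by simp) card_image_le
  have h2 : (1 : ℝ) ≤ (N : ℝ) ^ (1 / 4 : ℝ) :=
    Real.one_le_rpow (by exact_mod_cast hN) (by norm_num)
  have h3 := h N hN
  calc (((Icc 2 N).filter fun k => numClasses k ≠ if Fam k then 5 else 3).card : ℝ)
      ≤ 2 + (Bad N).card := by exact_mod_cast h1
    _ ≤ _ := by nlinarith

end Pool.Agent.Lib.MP_b40da5_nt_h96
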